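import Mathlib

/-!
# A length-increasing multiplicative wqo containing no finitely generated wqo

On the words over two letters `a`, `b` (`b = true`) put `x ≤ y` if `x` is a (scattered) subword of
`y` with the same number of letters `b`, or if both words have at least two letters `b` and
`|x| ≤ |y|`.  This is a length-increasing multiplicative well-quasi-order, but no finite set of
rules `u → v` with `u ≤ v` generates a well-quasi-order.
-/

namespace Pool.Agent.Results.MP_577ba1_lc.NotFinitelyGenerated

/-- A well-quasi-order: reflexive, transitive, and every infinite sequence has `i < j` with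
`f i ≤ f j`. -/
def IsWqo {A : Type} (r : List A → List A → Prop) : Prop :=
  (∀ x, r x x) ∧ (∀ x y z, r x y → r y z → r x z) ∧ ∀ f : ℕ → List A, ∃ i j, i < j ∧ r (f i) (f j)

/-- Compatible with multiplication by words on both sides. -/
def Multiplicative {A : Type} (r : List A → List A → Prop) : Prop :=
  ∀ x y, r x y → ∀ u v, r (u ++ x ++ v) (u ++ y ++ v)

/-- Related words have increasing lengths. -/
def LengthIncreasing {A : Type} (r : List A → List A → Prop) : Prop :=
  ∀ x y, r x y → x.length ≤ y.length

/-- One step of the rewriting system `P`. -/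
def Step {A : Type} (P : Finset (List A × List A)) (x y : List A) : Prop :=
  ∃ e ∈ P, ∃ s t, x = s ++ e.1 ++ t ∧ y = s ++ e.2 ++ t

/-- The derivation relation of the rewriting system `P`. -/
def Derives {A : Type} (P : Finset (List A × List A)) : List A → List A → Prop :=
  Relation.ReflTransGen (Step P)

/-- the quasi-order of the example -/
def ord (x y : List Bool) : Prop :=
  (List.Sublist x y ∧ x.count true = y.count true) ∨
    (2 ≤ x.count true ∧ 2 ≤ y.count true ∧ x.length ≤ y.length)

theorem ord_trans (x y z : List Bool) (h : ord x y) (h' : ord y z) : ord x z := by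
  rcases h with ⟨h1, h2⟩ | ⟨h1, h2, h3⟩ <;> rcases h' with ⟨h4, h5⟩ | ⟨h4, h5, h6⟩
  · exact Or.inl ⟨h1.trans h4, h2.trans h5⟩
  · exact Or.inr ⟨by omega, h5, h1.length_le.trans h6⟩
  · exact Or.inr ⟨h1, by omega, h3.trans h4.length_le⟩
  · exact Or.inr ⟨h1, h5, h3.trans h6⟩

theorem higman (f : ℕ → List Bool) : ∃ i j, i < j ∧ List.Sublist (f i) (f j) := by
  have h0 : (Set.univ : Set Bool).PartiallyWellOrderedOn (Eq : Bool → Bool → Prop) :=
    Set.Finite.partiallyWellOrderedOn (Set.toFinite _)
  have : IsPreorder Bool (Eq : Bool → Bool → Prop) := { refl := fun _ => rfl, trans := fun _ _ _ => Eq.trans }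
  have h1 := Set.PartiallyWellOrderedOn.partiallyWellOrderedOn_sublistForall₂ (Eq : Bool → Bool → Prop) h0
  obtain ⟨i, j, hij, h2⟩ := h1 (fun n => ⟨f n, fun x _ => Set.mem_univ _⟩)
  refine ⟨i, j, hij, ?_⟩
  obtain ⟨l, h3, h4⟩ := List.sublistForall₂_iff.1 h2
  rw [List.forall₂_eq_eq_eq] at h3
  subst h3
  exact h4

theorem ord_wqo : IsWqo ord := by
  refine ⟨fun x => Or.inl ⟨List.Sublist.refl x, rfl⟩, ord_trans, fun f => ?_⟩
  -- infinitely many words of the same kind
  obtain ⟨c, hc⟩ := Finite.exists_infinite_fiber
    (fun n => (⟨min ((f n).count true) 2, by omega⟩ : Fin 3))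
  have hinf : {n | min ((f n).count true) 2 = (c : ℕ)}.Infinite := by
    refine (Set.infinite_coe_iff.1 hc).mono fun n hn => ?_
    have : (⟨min ((f n).count true) 2, by omega⟩ : Fin 3) = c := hn
    exact congrArg Fin.val this
  obtain ⟨i, j, hij, h⟩ := higman fun k => f (Nat.nth (fun n => min ((f n).count true) 2 = (c : ℕ)) k)
  set g := Nat.nth (fun n => min ((f n).count true) 2 = (c : ℕ)) with hg
  have hg1 : StrictMono g := Nat.nth_strictMono hinf
  have hg2 : ∀ k, min ((f (g k)).count true) 2 = (c : ℕ) := fun k =>
    Nat.nth_mem_of_infinite hinf k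
  refine ⟨g i, g j, hg1 hij, ?_⟩
  have h1 := hg2 i
  have h2 := hg2 j
  by_cases h3 : 2 ≤ (f (g i)).count true
  · exact Or.inr ⟨h3, by omega, h.length_le⟩
  · exact Or.inl ⟨h, by omega⟩

theorem ord_mul : Multiplicative ord := by
  intro x y h u v
  rcases h with ⟨h1, h2⟩ | ⟨h1, h2, h3⟩
  · exact Or.inl ⟨(h1.append_left u).append_right v, by simp [h2]⟩
  · refine Or.inr ⟨?_, ?_, ?_⟩
    · simp only [List.count_append]; omega
    · simp only [List.count_append]; omega
    · simp only [List.length_append]; omega

theorem ord_len : LengthIncreasing ord := by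
  rintro x y (⟨h1, -⟩ | ⟨-, -, h3⟩)
  · exact h1.length_le
  · exact h3

/-- any two letters `b` of `w` have distance at least `N` -/
def Good (N : ℕ) (w : List Bool) : Prop := ∀ x, x <:+: w → x.length ≤ N → x.count true ≤ 1

theorem Good.ext {N : ℕ} {w w' : List Bool} (h : Good N w) (hs : List.Sublist w w')
    (hc : w.count true = w'.count true) : Good N w' := by
  rintro x ⟨p, q, rfl⟩ hx
  obtain ⟨w1, w2, rfl, h1, h2⟩ := List.sublist_append_iff.1 hs
  obtain ⟨w3, w4, rfl, h3, h4⟩ := List.sublist_append_iff.1 h1
  have e1 := h3.count_le true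
  have e2 := h4.count_le true
  have e3 := h2.count_le true
  have e4 := h w4 ⟨w3, w2, rfl⟩ (h4.length_le.trans hx)
  simp only [List.count_append] at hc
  omega

theorem step_good {P : Finset (List Bool × List Bool)} {N : ℕ} (hN : ∀ e ∈ P, e.1.length ≤ N)
    (hP : ∀ e ∈ P, ord e.1 e.2) {w w' : List Bool} (hw : Good N w) (h : Step P w w') :
    Good N w' ∧ w'.count true = w.count true := by
  obtain ⟨e, he, s, t, rfl, rfl⟩ := h
  have h1 : e.1.count true ≤ 1 := hw e.1 ⟨s, t, rfl⟩ (hN e he)
  rcases hP e he with ⟨h2, h3⟩ | ⟨h2, -⟩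
  · have h4 : (s ++ e.1 ++ t).count true = (s ++ e.2 ++ t).count true := by simp [h3]
    exact ⟨hw.ext ((h2.append_left s).append_right t) h4, h4.symm⟩
  · omega

theorem derives_good {P : Finset (List Bool × List Bool)} {N : ℕ} (hN : ∀ e ∈ P, e.1.length ≤ N)
    (hP : ∀ e ∈ P, ord e.1 e.2) {w w' : List Bool} (hw : Good N w) (h : Derives P w w') :
    Good N w' ∧ w'.count true = w.count true := by
  induction h with
  | refl => exact ⟨hw, rfl⟩
  | tail _ hs ih =>
    obtain ⟨h1, h2⟩ := step_good hN hP ih.1 hs
    exact ⟨h1, h2.trans ih.2⟩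

/-- the word with letters `b` exactly at the multiples of `N + 1` -/
def W (N M : ℕ) : List Bool := (List.range M).map (fun i => decide ((N + 1) ∣ i))

theorem W_good (N M : ℕ) : Good N (W N M) := by
  intro x hx hlen
  by_contra hcon
  have h2 : List.Sublist [true, true] x := by
    have := List.replicate_sublist_iff.2 (show 2 ≤ x.count true by omega)
    exact this
  obtain ⟨p, q, hpq⟩ := hx
  -- `x` is the image of an interval
  have hlenM : p.length + x.length ≤ M := by
    have := congrArg List.length hpq
    simp only [List.length_append, W, List.length_map, List.length_range] at this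
    omega
  have hx' : x = (List.range' p.length x.length).map (fun i => decide ((N + 1) ∣ i)) := by
    have h3 : x = List.take x.length (List.drop p.length (W N M)) := by
      rw [← hpq]; simp
    rw [W, ← List.map_drop, ← List.map_take, List.range_eq_range', List.drop_range',
      List.take_range'_of_length_ge (by omega)] at h3
    simpa using h3
  rw [hx'] at h2
  obtain ⟨l, hl, hl'⟩ := List.sublist_map_iff.1 h2
  have hl2 : l.length = 2 := by
    have := congrArg List.length hl'
    simpa using this.symm
  obtain ⟨i, j, rfl⟩ := List.length_eq_two.1 hl2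
  simp only [List.map_cons, List.map_nil, List.cons.injEq, and_true] at hl'
  have hi : (N + 1) ∣ i := of_decide_eq_true hl'.1.symm
  have hj : (N + 1) ∣ j := of_decide_eq_true hl'.2.symm
  have hmem : ∀ z ∈ [i, j], p.length ≤ z ∧ z < p.length + x.length := by
    intro z hz
    exact List.mem_range'_1.1 (hl.subset hz)
  have hpw : [i, j].Pairwise (· < ·) := (List.pairwise_lt_range' 1).sublist hl
  have hij : i < j := by simpa using hpw
  have h3 := hmem i (by simp)
  have h4 := hmem j (by simp)
  obtain ⟨a, rfl⟩ := hi
  obtain ⟨b, rfl⟩ := hj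
  have hab : a < b := lt_of_mul_lt_mul_left hij (Nat.zero_le _)
  have h5 : (N + 1) * (a + 1) ≤ (N + 1) * b := Nat.mul_le_mul_left _ hab
  have h6 : (N + 1) * (a + 1) = (N + 1) * a + (N + 1) := by ring
  omega

theorem W_count (N k : ℕ) : (W N ((N + 1) * k)).count true < (W N ((N + 1) * (k + 1))).count true := by
  have h : (N + 1) * (k + 1) = (N + 1) * k + 1 + N := by ring
  rw [h]
  unfold W
  rw [List.range_add, List.range_succ, List.map_append, List.map_append, List.count_append,
    List.count_append]
  have h1 : List.count true (List.map (fun i => decide ((N + 1) ∣ i)) [(N + 1) * k]) = 1 := by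
    simp
  omega

/-- **Disproof.** There are a two-letter alphabet and a length-increasing multiplicative
well-quasi-order such that no finite set of rules `u → v` with `u`, `v` nonempty and `u ≤ v`
generates a well-quasi-order. -/
theorem result : ∃ r : List Bool → List Bool → Prop, IsWqo r ∧ Multiplicative r ∧
    LengthIncreasing r ∧ ∀ P : Finset (List Bool × List Bool),
      (∀ e ∈ P, e.1 ≠ [] ∧ e.2 ≠ [] ∧ r e.1 e.2) → ¬ IsWqo (Derives P) := by
  refine ⟨ord, ord_wqo, ord_mul, ord_len, fun P hP hwqo => ?_⟩
  set N := P.sup (fun e => e.1.length) with hN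
  have hN' : ∀ e ∈ P, e.1.length ≤ N := fun e he =>
    Finset.le_sup (f := fun e : List Bool × List Bool => e.1.length) he
  obtain ⟨i, j, hij, h⟩ := hwqo.2.2 fun k => W N ((N + 1) * k)
  have hmono : StrictMono fun k => (W N ((N + 1) * k)).count true :=
    strictMono_nat_of_lt_succ (W_count N)
  have h1 := (derives_good hN' (fun e he => (hP e he).2.2) (W_good N _) h).2
  have h2 := hmono hij
  simp only at h2
  omega

end Pool.Agent.Results.MP_577ba1_lc.NotFinitelyGenerated
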